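import Pool.Agent.Helper55.HL.GenA

/-!
# Generic elements (project HL, MP_d4e3d0_lc)

`generic`: in a group with `Hyp` (a generic one-relator group or a free group) and given finitely many
elements `h`, there are elements `qq j`, `j < q`, such that in every subgroup `J` with at most `T`
generators that contains all `h` and all `qq j`, the `qq j` are part of a basis, with all `h` in the
subgroup generated by the other elements of the basis.
-/

set_option autoImplicit false

namespace Pool.Agent.Helper55.HL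

open Pool.Agent.Helper22.OR Gr

variable {n : ℕ} {G : Type} [Group G]

/-- Some edge outside a small set is passed exactly once. -/
theorem one_edge {Γ : Gr (Fin n)} {k T M : ℕ}
    (hconn : ∀ v, ∃ g, Γ.P FreeGroup.of Γ.base v g)
    (hrank : Fintype.card Γ.E + 1 ≤ Fintype.card Γ.V + k) (hk : k ≤ T)
    (is : List (Fin n)) (hnd : is.Nodup) (hlen : is.length = T + 1)
    (F : Finset Γ.E) (hF : F.card < M) {l : List Γ.D} {u v : Γ.V} (hw : walk Γ u l v)
    (hl : l.map Γ.lt = blk M is) :
    ∃ (e : Γ.E) (la lb : List Γ.D), e ∉ F ∧ Γ.lab e ∈ is ∧ l = la ++ (e, true) :: lb ∧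
      (∀ d ∈ la, d.1 ≠ e) ∧ (∀ d ∈ lb, d.1 ≠ e) := by
  classical
  -- all darts are positive
  have hpos : ∀ d ∈ l, d.2 = true := by
    intro d hd
    have h1 : Γ.lt d ∈ blk M is := by
      rw [← hl]
      exact List.mem_map_of_mem hd
    exact (mem_blk h1).2
  -- the decomposition at a block
  have hdec : ∀ i ∈ is, ∃ (l1 l2 l3 : List Γ.D) (x y : Γ.V), l = l1 ++ l2 ++ l3 ∧
      walk Γ x l2 y ∧ l2.map Γ.lt = List.replicate M (i, true) ∧
      (∀ d ∈ l1, Γ.lab d.1 ≠ i) ∧ (∀ d ∈ l3, Γ.lab d.1 ≠ i) := by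
    intro i hi
    obtain ⟨is1, is2, h1, h2⟩ := List.eq_append_cons_of_mem hi
    have h3 : i ∉ is2 := by
      rw [h1] at hnd
      have h4 := (List.nodup_append.1 hnd).2.1
      exact (List.nodup_cons.1 h4).1
    rw [h1, blk_append, blk_cons] at hl
    obtain ⟨l1, l23, h5, h6, h7⟩ := List.map_eq_append_iff.1 hl
    obtain ⟨l2, l3, h8, h9, h10⟩ := List.map_eq_append_iff.1 h7
    subst h5 h8
    obtain ⟨x, hx, hx'⟩ := walk_append.1 hw
    obtain ⟨y, hy, hy'⟩ := walk_append.1 hx'
    refine ⟨l1, l2, l3, x, y, by rw [List.append_assoc], hy, h9, ?_, ?_⟩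
    · intro d hd hc
      have h11 : Γ.lt d ∈ blk M is1 := by
        rw [← h6]
        exact List.mem_map_of_mem hd
      have h12 := (mem_blk h11).1
      apply h2
      rw [← hc]
      exact h12
    · intro d hd hc
      have h11 : Γ.lt d ∈ blk M is2 := by
        rw [← h10]
        exact List.mem_map_of_mem hd
      have h12 := (mem_blk h11).1
      apply h3
      rw [← hc]
      exact h12
  by_cases hA : ∃ i ∈ is, ∃ (l1 l2 l3 : List Γ.D) (x y : Γ.V), l = l1 ++ l2 ++ l3 ∧
      walk Γ x l2 y ∧ l2.map Γ.lt = List.replicate M (i, true) ∧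
      (∀ d ∈ l1, Γ.lab d.1 ≠ i) ∧ (∀ d ∈ l3, Γ.lab d.1 ≠ i) ∧ l2.Nodup
  · obtain ⟨i, hi, l1, l2, l3, x, y, h1, h2, h3, h4, h5, h6⟩ := hA
    have hlab : ∀ d ∈ l2, Γ.lt d = (i, true) := by
      intro d hd
      have h7 : Γ.lt d ∈ List.replicate M ((i, true) : Letter n) := by
        rw [← h3]
        exact List.mem_map_of_mem hd
      exact List.eq_of_mem_replicate h7
    have hl2 : l2.length = M := by
      have h7 := congrArg List.length h3
      rwa [List.length_map, List.length_replicate] at h7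
    have hex : ∃ d ∈ l2, d.1 ∉ F := by
      by_contra hcon
      push Not at hcon
      have h7 : (l2.map Prod.fst).Nodup := by
        rw [List.nodup_map_iff_inj_on h6]
        intro a ha b hb hab
        have h8 := congrArg Prod.snd (hlab a ha)
        have h9 := congrArg Prod.snd (hlab b hb)
        exact Prod.ext hab (h8.trans h9.symm)
      have h8 : (l2.map Prod.fst).toFinset ⊆ F := by
        intro e he
        rw [List.mem_toFinset, List.mem_map] at he
        obtain ⟨d, hd, rfl⟩ := he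
        exact hcon d hd
      have h9 := Finset.card_le_card h8
      rw [List.toFinset_card_of_nodup h7, List.length_map, hl2] at h9
      omega
    obtain ⟨⟨e, c⟩, hd, hdF⟩ := hex
    have hc : c = true := congrArg Prod.snd (hlab _ hd)
    subst hc
    have hei : Γ.lab e = i := congrArg Prod.fst (hlab _ hd)
    obtain ⟨p, r, h7, h8⟩ := List.eq_append_cons_of_mem hd
    have h9 : (e, true) ∉ r := by
      rw [h7] at h6
      have h10 := (List.nodup_append.1 h6).2.1
      exact (List.nodup_cons.1 h10).1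
    refine ⟨e, l1 ++ p, r ++ l3, hdF, by rw [hei]; exact hi, ?_, ?_, ?_⟩
    · rw [h1, h7]
      simp
    · intro d hd' hde
      rcases List.mem_append.1 hd' with h10 | h10
      · apply h4 d h10
        rw [hde, hei]
      · apply h8
        have h11 : d.2 = true := congrArg Prod.snd (hlab d (by rw [h7]; simp [h10]))
        have h12 : d = (e, true) := Prod.ext hde h11
        rwa [h12] at h10
    · intro d hd' hde
      rcases List.mem_append.1 hd' with h10 | h10
      · apply h9
        have h11 : d.2 = true := congrArg Prod.snd (hlab d (by rw [h7]; simp [h10]))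
        have h12 : d = (e, true) := Prod.ext hde h11
        rwa [h12] at h10
      · apply h5 d h10
        rw [hde, hei]
  · exfalso
    -- for each block there is a closed walk
    have hB : ∀ i ∈ is, ∃ (e : Γ.E) (m : List Γ.D), Γ.lab e = i ∧
        walk Γ (Γ.tgt e) m (Γ.src e) ∧ ∀ d ∈ m, Γ.lab d.1 = i ∧ d.1 ≠ e := by
      intro i hi
      obtain ⟨l1, l2, l3, x, y, h1, h2, h3, h4, h5⟩ := hdec i hi
      have h6 : ¬ l2.Nodup := fun h7 => hA ⟨i, hi, l1, l2, l3, x, y, h1, h2, h3, h4, h5, h7⟩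
      have hlab : ∀ d ∈ l2, Γ.lt d = (i, true) := by
        intro d hd
        have h7 : Γ.lt d ∈ List.replicate M ((i, true) : Letter n) := by
          rw [← h3]
          exact List.mem_map_of_mem hd
        exact List.eq_of_mem_replicate h7
      obtain ⟨p, d, m, r, h7, h8⟩ := dup h6
      rw [h7] at h2
      obtain ⟨z, -, h9⟩ := walk_append.1 h2
      obtain ⟨h10, h11⟩ := h9
      obtain ⟨z', h12, h13⟩ := walk_append.1 h11
      obtain ⟨h14, -⟩ := h13
      have hd := hlab d (by rw [h7]; simp)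
      have hd2 : d.2 = true := congrArg Prod.snd hd
      obtain ⟨e, c⟩ := d
      simp only at hd2
      subst hd2
      refine ⟨e, m, congrArg Prod.fst hd, ?_, ?_⟩
      · have h15 : z' = Γ.src e := h14.symm
        rw [← h15]
        exact h12
      · intro d' hd'
        have h16 := hlab d' (by rw [h7]; simp [hd'])
        refine ⟨congrArg Prod.fst h16, fun h17 => h8 ?_⟩
        have h18 : d' = (e, true) :=
          Prod.ext h17 (show d'.2 = true from congrArg Prod.snd h16)
        rwa [h18] at hd'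
    have hne : Nonempty Γ.E := by
      rcases is with _ | ⟨i0, is⟩
      · simp at hlen
      · obtain ⟨e, -⟩ := hB i0 (by simp)
        exact ⟨e⟩
    choose! δ m hδ hm hm' using hB
    set R : Set Γ.E := {e | ∃ i ∈ is, δ i = e} with hR
    have hRcard : Fintype.card {e : Γ.E // e ∉ R} + (T + 1) = Fintype.card Γ.E := by
      have h1 : (is.map δ).Nodup := by
        rw [List.nodup_map_iff_inj_on hnd]
        intro a ha b hb hab
        rw [← hδ a ha, ← hδ b hb, hab]
      have h2 : Fintype.card {e : Γ.E // e ∈ R} = T + 1 := by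
        rw [Fintype.card_subtype]
        have h3 : (Finset.univ.filter (fun e => e ∈ R)) = (is.map δ).toFinset := by
          ext e
          simp [hR, eq_comm]
        rw [h3, List.toFinset_card_of_nodup h1, List.length_map, hlen]
      have h4 := Fintype.card_subtype_compl (fun e : Γ.E => e ∈ R)
      have h5 : Fintype.card {e : Γ.E // e ∈ R} ≤ Fintype.card Γ.E :=
        Fintype.card_subtype_le _
      have h6 : Fintype.card {e : Γ.E // e ∉ R} =
          Fintype.card Γ.E - Fintype.card {e : Γ.E // e ∈ R} := by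
        rw [← h4]
      omega
    have h1 : ∀ e ∈ R, ∃ g, (delR Γ R).P FreeGroup.of (Γ.src e) (Γ.tgt e) g := by
      rintro e ⟨i, hi, rfl⟩
      have h2 : ∀ d ∈ m i, d.1 ∉ R := by
        rintro d hd ⟨i', hi', h3⟩
        have h4 := hm' i hi d hd
        rw [← h3, hδ i' hi'] at h4
        rw [h4.1] at h4
        exact h4.2 rfl
      exact ⟨_, (P_of_walk_del (hm i hi) h2).symm⟩
    have h2 : ∀ v : (delR Γ R).V, ∃ g, (delR Γ R).P FreeGroup.of (delR Γ R).base v g := by
      intro v
      obtain ⟨g, hg⟩ := hconn v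
      exact conn_delR h1 hg
    have h3 := card_le_of_conn h2
    have h4 : Fintype.card (delR Γ R).V = Fintype.card Γ.V := Fintype.card_congr (Equiv.refl _)
    have h5 : Fintype.card (delR Γ R).E = Fintype.card {e : Γ.E // e ∉ R} :=
      Fintype.card_congr (Equiv.refl _)
    rw [h4, h5] at h3
    omega

/-- **Generic elements.** -/
theorem generic_words {f : Fin n → G} {L e s b : ℕ} {RR : Set (List (Letter n))}
    (hy : Hyp f L e s b RR) (hrun : ∀ x a m v, x ++ List.replicate m a ++ v ∈ RR → 2 * m ≤ e)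
    {q T : ℕ} (hq : q * (T + 1) ≤ n) (hT : T + 1 ≤ n) (S0 : Finset (FreeGroup (Fin n))) :
    ∃ qq : Fin q → G, ∀ k : ℕ, k ≤ T → ∀ g : Fin k → G,
      (∀ w ∈ S0, FreeGroup.lift f w ∈ Subgroup.closure (Set.range g)) →
      (∀ j, qq j ∈ Subgroup.closure (Set.range g)) →
      ∃ (β : Type) (φ : FreeGroup (Fin q ⊕ β) →* G), Function.Injective φ ∧
        φ.range = Subgroup.closure (Set.range g) ∧
        (∀ j, φ (FreeGroup.of (Sum.inl j)) = qq j) ∧
        ∀ w ∈ S0, FreeGroup.lift f w ∈ (φ.comp (FreeGroup.map Sum.inr)).range := by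
  classical
  obtain ⟨c⟩ : Nonempty (Fin q × Fin (T + 1) ↪ Fin n) := by
    refine Function.Embedding.nonempty_of_card_le ?_
    simpa using hq
  set is : Fin q → List (Fin n) := fun j => List.ofFn (fun t => c (j, t)) with his
  have hnd : ∀ j, (is j).Nodup := by
    intro j
    refine List.nodup_ofFn.2 ?_
    intro t t' h
    exact (Prod.ext_iff.1 (c.injective h)).2
  have hlen : ∀ j, (is j).length = T + 1 := fun j => List.length_ofFn
  have hdisj : ∀ j j' i, i ∈ is j → i ∈ is j' → j = j' := by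
    intro j j' i h1 h2
    obtain ⟨t, ht⟩ := List.mem_ofFn.1 h1
    obtain ⟨t', ht'⟩ := List.mem_ofFn.1 h2
    exact (Prod.ext_iff.1 (c.injective (ht.trans ht'.symm))).1
  set M : ℕ := L + (∑ w ∈ S0, L * w.norm) + 1 with hM
  set U : Fin q → FreeGroup (Fin n) := fun j => FreeGroup.mk (blk M (is j)) with hU
  have hUw : ∀ j, (U j).toWord = blk M (is j) := by
    intro j
    rw [hU, FreeGroup.toWord_mk, (blk_reduced M (is j)).reduce_eq]
  refine ⟨fun j => FreeGroup.lift f (U j), ?_⟩
  intro k hkT g hS hQ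
  have hk : k + 1 ≤ n := by omega
  obtain ⟨Γ, hΓ⟩ := exists_mini (exists_good f hy.surj g)
  have hf : Γ.Folded := hΓ.folded
  -- the walks of the given elements
  have hSw : ∀ w ∈ S0, ∃ (w' : FreeGroup (Fin n)) (l : List Γ.D),
      FreeGroup.lift f w' = FreeGroup.lift f w ∧ walk Γ Γ.base l Γ.base ∧
      l.map Γ.lt = w'.toWord ∧ l.length ≤ L * w.norm := by
    intro w hw
    obtain ⟨w', h1, h2, h3⟩ := short_loop hy hΓ hk w (hS w hw)
    obtain ⟨l, h4, h5⟩ := walk_of_P hf (mem_im.1 h1)
    refine ⟨w', l, h2, h4, h5, ?_⟩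
    have h6 : l.length = w'.norm := by
      rw [← List.length_map (f := Γ.lt), h5]
      rfl
    rw [h6]
    exact h3
  choose! w' lw hw'1 hw'2 hw'3 hw'4 using hSw
  set F : Finset Γ.E := S0.biUnion (fun w => ((lw w).map Prod.fst).toFinset) with hF
  have hFcard : F.card < M := by
    have h1 : F.card ≤ ∑ w ∈ S0, L * w.norm := by
      refine le_trans Finset.card_biUnion_le ?_
      refine Finset.sum_le_sum fun w hw => ?_
      refine le_trans (List.toFinset_card_le _) ?_
      rw [List.length_map]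
      exact hw'4 w hw
    omega
  -- the walks of the new elements
  have hUim : ∀ j, U j ∈ Γ.im FreeGroup.of := by
    intro j
    obtain ⟨w, h1, h2, -⟩ := short_loop hy hΓ hk (U j) (hQ j)
    have h3 : w = U j := by
      refine unique_word hy (fun c h3 h4 => no_long hy hΓ hk (mem_im.1 h1) c h3 h4) ?_ h2
      intro x ρ y v h4 h5
      rw [hUw] at h4
      exact blk_short hy.len hrun (by omega) (is j) x ρ y v h4 h5
    rw [← h3]
    exact h1
  have hE : ∀ j, ∃ (ε : Γ.E) (la lb : List Γ.D), ε ∉ F ∧ Γ.lab ε ∈ is j ∧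
      walk Γ Γ.base la (Γ.src ε) ∧ walk Γ (Γ.tgt ε) lb Γ.base ∧
      la.map Γ.lt ++ (Γ.lab ε, true) :: lb.map Γ.lt = blk M (is j) ∧
      (∀ d ∈ la, d.1 ≠ ε) ∧ (∀ d ∈ lb, d.1 ≠ ε) := by
    intro j
    obtain ⟨l, h1, h2⟩ := walk_of_P hf (mem_im.1 (hUim j))
    rw [hUw] at h2
    have hconn : ∀ v, ∃ g, Γ.P FreeGroup.of Γ.base v g := by
      intro v
      obtain ⟨g, hg⟩ := hΓ.good.conn v
      obtain ⟨w, hw, -⟩ := exists_P_of f hg
      exact ⟨w, hw⟩
    obtain ⟨ε, la, lb, h3, h4, h5, h6, h7⟩ :=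
      one_edge hconn hΓ.good.rank hkT (is j) (hnd j) (hlen j) F hFcard h1 h2
    rw [h5] at h1 h2
    obtain ⟨x, h8, h9⟩ := walk_append.1 h1
    obtain ⟨h10, h11⟩ := h9
    refine ⟨ε, la, lb, h3, h4, ?_, h11, ?_, h6, h7⟩
    · have h12 : x = Γ.src ε := h10.symm
      rw [← h12]
      exact h8
    · rw [← h2]
      simp [Gr.lt]
  choose ε la lb hε1 hε2 hε3 hε4 hε5 hε6 hε7 using hE
  have hεinj : Function.Injective ε := by
    intro j j' h
    have h1 := hε2 j'
    rw [← h] at h1
    exact hdisj j j' _ (hε2 j) h1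
  have hlab : ∀ j (d : Γ.D), (d ∈ la j ∨ d ∈ lb j) → Γ.lab d.1 ∈ is j := by
    intro j d hd
    have h1 : Γ.lt d ∈ blk M (is j) := by
      rw [← hε5 j, List.mem_append, List.mem_cons]
      rcases hd with hd | hd
      · exact Or.inl (List.mem_map_of_mem hd)
      · exact Or.inr (Or.inr (List.mem_map_of_mem hd))
    exact (mem_blk h1).1
  have havoid : ∀ j (d : Γ.D), (d ∈ la j ∨ d ∈ lb j) → d.1 ∉ Set.range ε := by
    rintro j d hd ⟨j', h⟩
    have h1 := hlab j d hd
    rw [← h] at h1
    have h2 := hdisj j j' _ h1 (hε2 j')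
    subst h2
    rcases hd with hd | hd
    · exact hε6 j d hd h.symm
    · exact hε7 j d hd h.symm
  set a : Fin q → FreeGroup (Fin n) := fun j => FreeGroup.mk ((la j).map Γ.lt) with ha
  set b' : Fin q → FreeGroup (Fin n) := fun j => FreeGroup.mk ((lb j).map Γ.lt) with hb
  have hPa : ∀ j, (delR Γ (Set.range ε)).P FreeGroup.of Γ.base (Γ.src (ε j)) (a j) := fun j =>
    P_of_walk_del (hε3 j) fun d hd => havoid j d (Or.inl hd)
  have hPb : ∀ j, (delR Γ (Set.range ε)).P FreeGroup.of (Γ.tgt (ε j)) Γ.base (b' j) := fun j =>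
    P_of_walk_del (hε4 j) fun d hd => havoid j d (Or.inr hd)
  have hUeq : ∀ j, a j * FreeGroup.of (Γ.lab (ε j)) * b' j = U j := by
    intro j
    show FreeGroup.mk ((la j).map Γ.lt) * FreeGroup.mk [(Γ.lab (ε j), true)] *
      FreeGroup.mk ((lb j).map Γ.lt) = FreeGroup.mk (blk M (is j))
    rw [FreeGroup.mul_mk, FreeGroup.mul_mk, ← hε5 j]
    simp
  obtain ⟨β, ⟨bas⟩⟩ := IsFreeGroup.nonempty_basis
    (G := ↥((delR Γ (Set.range ε)).im FreeGroup.of))
  set φ0 : FreeGroup β ≃* ↥((delR Γ (Set.range ε)).im FreeGroup.of) := bas.repr.symm with hφ0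
  have hinj := dec_inj ε a b' hPa hPb hf hεinj β φ0
  set Φ : FreeGroup (Fin q ⊕ β) →* FreeGroup (Fin n) := FreeGroup.lift (Sum.elim
      (fun j => a j * FreeGroup.of (Γ.lab (ε j)) * b' j)
      (fun x : β => ((φ0 (FreeGroup.of x) : ↥((delR Γ (Set.range ε)).im FreeGroup.of)) :
        FreeGroup (Fin n)))) with hΦ
  have hΦr : Φ.comp (FreeGroup.map Sum.inr) =
      ((delR Γ (Set.range ε)).im FreeGroup.of).subtype.comp φ0.toMonoidHom := by
    apply FreeGroup.ext_hom
    intro x
    rw [MonoidHom.comp_apply, FreeGroup.map.of, hΦ, FreeGroup.lift_apply_of]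
    rfl
  have hrange : Φ.range = Γ.im FreeGroup.of := by
    rw [dec_sup ε a b' hPa hPb, hΦ, FreeGroup.range_lift_eq_closure, Set.Sum.elim_range,
      Subgroup.closure_union, sup_comm]
    congr 1
    have h1 : (FreeGroup.lift (fun x : β =>
        ((φ0 (FreeGroup.of x) : ↥((delR Γ (Set.range ε)).im FreeGroup.of)) :
          FreeGroup (Fin n)))) =
        ((delR Γ (Set.range ε)).im FreeGroup.of).subtype.comp φ0.toMonoidHom := by
      apply FreeGroup.ext_hom
      intro x
      rw [FreeGroup.lift_apply_of]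
      rfl
    rw [← FreeGroup.range_lift_eq_closure, h1, MonoidHom.range_comp]
    have h3 : φ0.toMonoidHom.range = ⊤ := MonoidHom.range_eq_top.mpr φ0.surjective
    rw [h3, ← MonoidHom.range_eq_map, Subgroup.range_subtype]
  refine ⟨β, (FreeGroup.lift f).comp Φ, ?_, ?_, ?_, ?_⟩
  · rw [injective_iff_map_eq_one]
    intro x hx
    refine (injective_iff_map_eq_one _).mp hinj x ?_
    refine lift_inj hy hΓ hk ?_ hx
    rw [← hrange]
    exact ⟨x, rfl⟩
  · rw [MonoidHom.range_comp, hrange, im_map, hΓ.good.im_eq]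
  · intro j
    show FreeGroup.lift f (Φ (FreeGroup.of (Sum.inl j))) = FreeGroup.lift f (U j)
    rw [hΦ, FreeGroup.lift_apply_of, ← hUeq j]
    rfl
  · intro w hw
    have h1 : (delR Γ (Set.range ε)).P FreeGroup.of Γ.base Γ.base
        (FreeGroup.mk ((lw w).map Γ.lt)) := by
      refine P_of_walk_del (hw'2 w hw) ?_
      rintro d hd ⟨j, hj⟩
      apply hε1 j
      rw [hF, Finset.mem_biUnion]
      refine ⟨w, hw, ?_⟩
      rw [List.mem_toFinset, List.mem_map]
      exact ⟨d, hd, hj.symm⟩
    rw [hw'3 w hw, FreeGroup.mk_toWord] at h1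
    refine ⟨φ0.symm ⟨w' w, mem_im.2 h1⟩, ?_⟩
    rw [MonoidHom.comp_assoc, hΦr, MonoidHom.comp_apply, ← hw'1 w hw]
    congr 1
    show ((φ0 (φ0.symm ⟨w' w, mem_im.2 h1⟩) :
      ↥((delR Γ (Set.range ε)).im FreeGroup.of)) : FreeGroup (Fin n)) = w' w
    rw [MulEquiv.apply_symm_apply]

end Pool.Agent.Helper55.HL
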