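import Pool.Agent.Helper22.OR.Fac

/-!
# Holonomy of folded graphs; removing edges; free decompositions

Project HL (MP_d4e3d0_lc).  `exists_hol`: if the edges of a folded graph carry labels in a group `H`
then the product of these labels along paths is a well defined homomorphism on `Γ.im of`.
`dec_sup`, `dec_inj`: if `ε j` are distinct edges and `u j = a j * x_(ε j) * b j`, with `a j`, `b j` read
in the graph `delR Γ R` without these edges, then `Γ.im of` is the free product of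
`(delR Γ R).im of` and the free group on the `u j`.
-/

set_option autoImplicit false

namespace Pool.Agent.Helper55.HL

open Pool.Agent.Helper22.OR Gr

variable {n : ℕ}

/-- the same graph; each edge is its own label -/
def eg {α : Type} (Γ : Gr α) : Gr Γ.E where
  V := Γ.V
  E := Γ.E
  src := Γ.src
  tgt := Γ.tgt
  lab := fun e => e
  base := Γ.base

/-- the graph without the edges in `R` -/
def delR {α : Type} (Γ : Gr α) (R : Set Γ.E) [DecidablePred (· ∈ R)] : Gr α where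
  V := Γ.V
  E := {e : Γ.E // e ∉ R}
  src := fun e => Γ.src e.1
  tgt := fun e => Γ.tgt e.1
  lab := fun e => Γ.lab e.1
  base := Γ.base

theorem exists_perm {Γ : Gr (Fin n)} (hf : Γ.Folded) (i : Fin n) :
    ∃ σ : Equiv.Perm Γ.V, ∀ e, Γ.lab e = i → σ (Γ.tgt e) = Γ.src e := by
  classical
  let tg : {e : Γ.E // Γ.lab e = i} → Γ.V := fun e => Γ.tgt e.1
  let sr : {e : Γ.E // Γ.lab e = i} → Γ.V := fun e => Γ.src e.1
  have h1 : Function.Injective tg := by
    intro e e' h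
    have h2 := hf (e.1, false) (e'.1, false) h (by
      show ((Γ.lab e.1, false) : Letter n) = (Γ.lab e'.1, false)
      rw [e.2, e'.2])
    exact Subtype.ext (congrArg Prod.fst h2)
  have h2 : Function.Injective sr := by
    intro e e' h
    have h2 := hf (e.1, true) (e'.1, true) h (by
      show ((Γ.lab e.1, true) : Letter n) = (Γ.lab e'.1, true)
      rw [e.2, e'.2])
    exact Subtype.ext (congrArg Prod.fst h2)
  let E : ↥(Set.range tg) ≃ ↥(Set.range sr) :=
    (Equiv.ofInjective tg h1).symm.trans (Equiv.ofInjective sr h2)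
  refine ⟨Equiv.extendSubtype (p := (· ∈ Set.range tg)) (q := (· ∈ Set.range sr)) E, ?_⟩
  intro e he
  have h3 : Γ.tgt e ∈ Set.range tg := ⟨⟨e, he⟩, rfl⟩
  rw [Equiv.extendSubtype_apply_of_mem (p := (· ∈ Set.range tg)) (q := (· ∈ Set.range sr)) E _ h3]
  have h4 : (⟨Γ.tgt e, h3⟩ : ↥(Set.range tg)) = Equiv.ofInjective tg h1 ⟨e, he⟩ := rfl
  show ((E ⟨Γ.tgt e, h3⟩ : ↥(Set.range sr)) : Γ.V) = _
  rw [h4]
  simp [E, sr]

variable {H : Type} [Group H]

/-- the values in the product of the free group and `H` -/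
abbrev pr {Γ : Gr (Fin n)} (lab' : Γ.E → H) : Γ.E → FreeGroup (Fin n) × H :=
  fun e => (FreeGroup.of (Γ.lab e), lab' e)

theorem hol_action {Γ : Gr (Fin n)} (hf : Γ.Folded) (lab' : Γ.E → H) :
    ∃ θ : FreeGroup (Fin n) →* Equiv.Perm (Γ.V × H),
      ∀ (u v : (eg Γ).V) (x : FreeGroup (Fin n) × H),
      (eg Γ).P (pr lab') u v x → ∀ k : H, θ x.1 ((v, k) : Γ.V × H) = ((u, x.2 * k) : Γ.V × H) := by
  classical
  choose σ hσ using fun i => exists_perm hf i
  let c : Fin n → Γ.V → H := fun i v =>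
    if h : ∃ e, Γ.lab e = i ∧ Γ.tgt e = v then lab' h.choose else 1
  have hc : ∀ e, c (Γ.lab e) (Γ.tgt e) = lab' e := by
    intro e
    have h : ∃ e', Γ.lab e' = Γ.lab e ∧ Γ.tgt e' = Γ.tgt e := ⟨e, rfl, rfl⟩
    have h1 : h.choose = e := by
      have h2 := h.choose_spec
      have h3 := hf (h.choose, false) (e, false) h2.2 (by
        show ((Γ.lab h.choose, false) : Letter n) = (Γ.lab e, false)
        rw [h2.1])
      exact congrArg Prod.fst h3
    show (if h : ∃ e', Γ.lab e' = Γ.lab e ∧ Γ.tgt e' = Γ.tgt e then lab' h.choose else 1) = lab' e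
    rw [dif_pos h, h1]
  let τ : Fin n → Equiv.Perm (Γ.V × H) := fun i =>
    { toFun := fun x => (σ i x.1, c i x.1 * x.2)
      invFun := fun x => ((σ i).symm x.1, (c i ((σ i).symm x.1))⁻¹ * x.2)
      left_inv := fun x => by simp
      right_inv := fun x => by simp }
  have hτ : ∀ e k, τ (Γ.lab e) (Γ.tgt e, k) = (Γ.src e, lab' e * k) := by
    intro e k
    show (σ (Γ.lab e) (Γ.tgt e), c (Γ.lab e) (Γ.tgt e) * k) = _
    rw [hσ _ e rfl, hc]
  refine ⟨FreeGroup.lift τ, ?_⟩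
  intro u v x h
  induction h with
  | refl v =>
    intro k
    simp
  | fwd e _ ih =>
    intro k
    show (FreeGroup.lift τ) (FreeGroup.of (Γ.lab e) * _) _ = (Γ.src e, lab' e * _ * k)
    rw [map_mul, Equiv.Perm.mul_apply, ih, FreeGroup.lift_apply_of]
    exact (hτ e _).trans (by rw [mul_assoc])
  | bwd e _ ih =>
    intro k
    show (FreeGroup.lift τ) ((FreeGroup.of (Γ.lab e))⁻¹ * _) _ = (Γ.tgt e, (lab' e)⁻¹ * _ * k)
    rw [map_mul, Equiv.Perm.mul_apply, ih, map_inv, FreeGroup.lift_apply_of,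
      Equiv.Perm.inv_eq_iff_eq]
    refine Eq.trans ?_ (hτ e _).symm
    refine Prod.ext rfl ?_
    show _ = lab' e * ((lab' e)⁻¹ * _ * k)
    group

theorem exists_lab {Γ : Gr (Fin n)} (lab' : Γ.E → H) {u v : Γ.V} {w : FreeGroup (Fin n)}
    (h : Γ.P FreeGroup.of u v w) : ∃ h' : H, (eg Γ).P (pr lab') u v (w, h') := by
  induction h with
  | refl v => exact ⟨1, P.refl (Γ := eg Γ) v⟩
  | fwd e _ ih =>
    obtain ⟨h', h1⟩ := ih
    exact ⟨_, P.fwd (Γ := eg Γ) (f := pr lab') e h1⟩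
  | bwd e _ ih =>
    obtain ⟨h', h1⟩ := ih
    exact ⟨_, P.bwd (Γ := eg Γ) (f := pr lab') e h1⟩

/-- The holonomy. -/
theorem exists_hol {Γ : Gr (Fin n)} (hf : Γ.Folded) (lab' : Γ.E → H) :
    ∃ Ψ : ↥(Γ.im FreeGroup.of) →* H, ∀ (w : FreeGroup (Fin n)) (hw : w ∈ Γ.im FreeGroup.of)
      (h : H), (eg Γ).P (pr lab') Γ.base Γ.base (w, h) → Ψ ⟨w, hw⟩ = h := by
  obtain ⟨θ, hθ⟩ := hol_action hf lab'
  have huniq : ∀ (w : FreeGroup (Fin n)) (h h' : H),
      (eg Γ).P (pr lab') Γ.base Γ.base (w, h) → (eg Γ).P (pr lab') Γ.base Γ.base (w, h') →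
      h = h' := by
    intro w h h' h1 h2
    have h3 := hθ _ _ _ h1 1
    rw [hθ _ _ _ h2 1] at h3
    simpa using (congrArg Prod.snd h3).symm
  choose ψ hψ using fun x : ↥(Γ.im FreeGroup.of) => exists_lab lab' (mem_im.1 x.2)
  refine ⟨MonoidHom.mk' ψ ?_, ?_⟩
  · rintro ⟨a, ha⟩ ⟨b, hb⟩
    have h1 := (hψ ⟨a, ha⟩).trans (hψ ⟨b, hb⟩)
    exact huniq _ _ _ (hψ (⟨a, ha⟩ * ⟨b, hb⟩)) h1
  · intro w hw h h1
    exact huniq _ _ _ (hψ ⟨w, hw⟩) h1

theorem delR_P {α : Type} {K : Type} [Group K] {f : α → K} {Γ : Gr α} {R : Set Γ.E}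
    [DecidablePred (· ∈ R)] {u v : Γ.V} {w : K} (h : (delR Γ R).P f u v w) : Γ.P f u v w := by
  exact P.transfer' (Γ := delR Γ R) (Γ' := Γ) (f := f) (f' := f) (fun x => x)
    (fun e => P.edge (Γ := Γ) (f := f) e.1) h

section Dec

variable {Γ : Gr (Fin n)} {q : ℕ} (ε : Fin q → Γ.E) [DecidablePred (· ∈ Set.range ε)]
  (a b : Fin q → FreeGroup (Fin n))
  (ha : ∀ j, (delR Γ (Set.range ε)).P FreeGroup.of Γ.base (Γ.src (ε j)) (a j))
  (hb : ∀ j, (delR Γ (Set.range ε)).P FreeGroup.of (Γ.tgt (ε j)) Γ.base (b j))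

include ha hb

theorem dec_sup_aux {u v : Γ.V} {w : FreeGroup (Fin n)} (h : Γ.P FreeGroup.of u v w)
    (hv : v = Γ.base) : ∃ w1 w2, (delR Γ (Set.range ε)).P FreeGroup.of u Γ.base w1 ∧
      w2 ∈ (delR Γ (Set.range ε)).im FreeGroup.of ⊔
        Subgroup.closure (Set.range fun j => a j * FreeGroup.of (Γ.lab (ε j)) * b j) ∧
      w = w1 * w2 := by
  set K := (delR Γ (Set.range ε)).im FreeGroup.of ⊔
        Subgroup.closure (Set.range fun j => a j * FreeGroup.of (Γ.lab (ε j)) * b j) with hK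
  have hB : ∀ w, (delR Γ (Set.range ε)).P FreeGroup.of Γ.base Γ.base w → w ∈ K := fun w hw =>
    (le_sup_left : (delR Γ (Set.range ε)).im FreeGroup.of ≤ K) hw
  have hU : ∀ j, a j * FreeGroup.of (Γ.lab (ε j)) * b j ∈ K := fun j =>
    (le_sup_right : Subgroup.closure _ ≤ K) (Subgroup.subset_closure ⟨j, rfl⟩)
  induction h with
  | refl v =>
    subst hv
    exact ⟨1, 1, P.refl (Γ := delR Γ (Set.range ε)) _, one_mem _, by group⟩
  | fwd e _ ih =>
    obtain ⟨w1, w2, h1, h2, h3⟩ := ih hv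
    by_cases he : e ∈ Set.range ε
    · obtain ⟨j, rfl⟩ := he
      refine ⟨(a j)⁻¹, (a j * FreeGroup.of (Γ.lab (ε j)) * b j) * ((b j)⁻¹ * w1) * w2,
        (ha j).symm, ?_, by rw [h3]; group⟩
      refine mul_mem (mul_mem (hU j) (hB _ ?_)) h2
      exact (hb j).symm.trans h1
    · refine ⟨FreeGroup.of (Γ.lab e) * w1, w2, ?_, h2, by rw [h3]; group⟩
      exact P.fwd (Γ := delR Γ (Set.range ε)) (f := FreeGroup.of) (⟨e, he⟩ : {e // e ∉ Set.range ε}) h1
  | bwd e _ ih =>
    obtain ⟨w1, w2, h1, h2, h3⟩ := ih hv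
    by_cases he : e ∈ Set.range ε
    · obtain ⟨j, rfl⟩ := he
      refine ⟨b j, (a j * FreeGroup.of (Γ.lab (ε j)) * b j)⁻¹ * (a j * w1) * w2,
        hb j, ?_, by rw [h3]; group⟩
      refine mul_mem (mul_mem (inv_mem (hU j)) (hB _ ?_)) h2
      exact (ha j).trans h1
    · refine ⟨(FreeGroup.of (Γ.lab e))⁻¹ * w1, w2, ?_, h2, by rw [h3]; group⟩
      exact P.bwd (Γ := delR Γ (Set.range ε)) (f := FreeGroup.of) (⟨e, he⟩ : {e // e ∉ Set.range ε}) h1

theorem dec_mem (j : Fin q) : a j * FreeGroup.of (Γ.lab (ε j)) * b j ∈ Γ.im FreeGroup.of :=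
  mem_im.2 (((delR_P (ha j)).trans (P.edge (f := FreeGroup.of) (ε j))).trans (delR_P (hb j)))

theorem dec_sup : Γ.im FreeGroup.of = (delR Γ (Set.range ε)).im FreeGroup.of ⊔
        Subgroup.closure (Set.range fun j => a j * FreeGroup.of (Γ.lab (ε j)) * b j) := by
  apply le_antisymm
  · intro w hw
    obtain ⟨w1, w2, h1, h2, h3⟩ := dec_sup_aux ε a b ha hb (mem_im.1 hw) rfl
    rw [h3]
    exact mul_mem ((le_sup_left : (delR Γ (Set.range ε)).im FreeGroup.of ≤ _) h1) h2
  · refine sup_le (fun w hw => mem_im.2 (delR_P (mem_im.1 hw))) ?_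
    rw [Subgroup.closure_le]
    rintro _ ⟨j, rfl⟩
    exact dec_mem ε a b ha hb j

theorem dec_inj (hf : Γ.Folded) (hε : Function.Injective ε) (β : Type)
    (φ : FreeGroup β ≃* ↥((delR Γ (Set.range ε)).im FreeGroup.of)) :
    Function.Injective (FreeGroup.lift (Sum.elim
      (fun j => a j * FreeGroup.of (Γ.lab (ε j)) * b j)
      (fun x : β => ((φ (FreeGroup.of x) : ↥((delR Γ (Set.range ε)).im FreeGroup.of)) :
        FreeGroup (Fin n)))) : FreeGroup (Fin q ⊕ β) →* FreeGroup (Fin n)) := by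
  classical
  set ι : FreeGroup (Fin n) →* FreeGroup (Fin (q + n)) := FreeGroup.map (Fin.natAdd q) with hι
  have hιinj : Function.Injective ι := FreeGroup.map_injective (Fin.natAdd_injective n q)
  let lab' : Γ.E → FreeGroup (Fin (q + n)) := fun e =>
    if h : ∃ j, ε j = e then
      (ι (a h.choose))⁻¹ * FreeGroup.of (Fin.castAdd n h.choose) * (ι (b h.choose))⁻¹
    else ι (FreeGroup.of (Γ.lab e))
  have hl1 : ∀ j, lab' (ε j) =
      (ι (a j))⁻¹ * FreeGroup.of (Fin.castAdd n j) * (ι (b j))⁻¹ := by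
    intro j
    have h : ∃ j', ε j' = ε j := ⟨j, rfl⟩
    have h1 : h.choose = j := hε h.choose_spec
    show (if h : ∃ j', ε j' = ε j then
      (ι (a h.choose))⁻¹ * FreeGroup.of (Fin.castAdd n h.choose) * (ι (b h.choose))⁻¹
    else ι (FreeGroup.of (Γ.lab (ε j)))) = _
    rw [dif_pos h, h1]
  have hl2 : ∀ e, e ∉ Set.range ε → lab' e = ι (FreeGroup.of (Γ.lab e)) := by
    intro e he
    have h : ¬ ∃ j', ε j' = e := he
    show (if h : ∃ j', ε j' = e then
      (ι (a h.choose))⁻¹ * FreeGroup.of (Fin.castAdd n h.choose) * (ι (b h.choose))⁻¹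
    else ι (FreeGroup.of (Γ.lab e))) = _
    rw [dif_neg h]
  obtain ⟨Ψ, hΨ⟩ := exists_hol hf lab'
  have hP : ∀ {u v : (delR Γ (Set.range ε)).V} {w : FreeGroup (Fin n)},
      (delR Γ (Set.range ε)).P FreeGroup.of u v w → (eg Γ).P (pr lab') u v (w, ι w) := by
    intro u v w h
    have h1 : ∀ e : (delR Γ (Set.range ε)).E,
        (eg Γ).P (pr lab') (Γ.src e.1) (Γ.tgt e.1)
          (FreeGroup.of (Γ.lab e.1), ι (FreeGroup.of (Γ.lab e.1))) := by
      intro e
      have h2 := P.edge (Γ := eg Γ) (f := pr lab') e.1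
      refine h2.congr ?_
      show (FreeGroup.of (Γ.lab e.1), lab' e.1) = _
      rw [hl2 _ e.2]
    induction h with
    | refl v => exact (P.refl (Γ := eg Γ) _).congr (by rw [map_one]; rfl)
    | fwd e _ ih => exact ((h1 e).trans ih).congr (by rw [map_mul]; rfl)
    | bwd e _ ih => exact ((h1 e).symm.trans ih).congr (by rw [map_mul, map_inv]; rfl)
  have hU : ∀ j, Ψ ⟨_, dec_mem ε a b ha hb j⟩ = FreeGroup.of (Fin.castAdd n j) := by
    intro j
    refine hΨ _ _ _ ?_
    have h1 := P.edge (Γ := eg Γ) (f := pr lab') (ε j)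
    refine (((hP (ha j)).trans h1).trans (hP (hb j))).congr ?_
    refine Prod.ext rfl ?_
    show ι (a j) * lab' (ε j) * ι (b j) = _
    rw [hl1]
    group
  have hC : ∀ (w : FreeGroup (Fin n)) (hw : w ∈ (delR Γ (Set.range ε)).im FreeGroup.of)
      (hw' : w ∈ Γ.im FreeGroup.of), Ψ ⟨w, hw'⟩ = ι w := by
    intro w hw hw'
    exact hΨ _ _ _ (hP (mem_im.1 hw))
  -- the injective map to the larger free group
  let S : Set (Fin (q + n)) := Set.range (Fin.castAdd n)
  let B : Subgroup (FreeGroup (Fin (q + n))) := ((delR Γ (Set.range ε)).im FreeGroup.of).map ι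
  have hword : ∀ w : FreeGroup (Fin n),
      (ι w).toWord = w.toWord.map (fun x => (Fin.natAdd q x.1, x.2)) := by
    intro w
    have h1 : ι w = FreeGroup.mk (w.toWord.map (fun x => (Fin.natAdd q x.1, x.2))) := by
      conv_lhs => rw [← FreeGroup.mk_toWord (x := w)]
      rw [hι, FreeGroup.map.mk]
    have h2 : FreeGroup.IsReduced (w.toWord.map (fun x => (Fin.natAdd q x.1, x.2))) := by
      have h3 : FreeGroup.IsReduced w.toWord := FreeGroup.isReduced_toWord
      unfold FreeGroup.IsReduced at *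
      rw [List.isChain_map]
      refine h3.imp ?_
      intro x y hxy h
      exact hxy (Fin.natAdd_injective n q h)
    rw [h1, FreeGroup.toWord_mk, h2.reduce_eq]
  have hB : ∀ w ∈ B, (∀ x l, w.toWord = x :: l → x.1 ∉ S) ∧
      (∀ x l, w.toWord = l ++ [x] → x.1 ∉ S) := by
    rintro _ ⟨w, -, rfl⟩
    have h1 : ∀ x ∈ (ι w).toWord, x.1 ∉ S := by
      intro x hx
      rw [hword] at hx
      obtain ⟨y, -, rfl⟩ := List.mem_map.1 hx
      rintro ⟨j, hj⟩
      have h2 := congrArg Fin.val hj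
      have h3 := j.2
      simp at h2
      omega
    exact ⟨fun x l h => h1 x (by rw [h]; simp), fun x l h => h1 x (by rw [h]; simp)⟩
  let φ' : FreeGroup β ≃* ↥B := φ.trans (Subgroup.equivMapOfInjective _ ι hιinj)
  have hfi := fac_inj S B hB β φ'
  let κ : FreeGroup (Fin q ⊕ β) →* FreeGroup (↥S ⊕ β) :=
    FreeGroup.map (Sum.map (fun j => (⟨Fin.castAdd n j, j, rfl⟩ : ↥S)) id)
  have hκ : Function.Injective κ := by
    refine FreeGroup.map_injective ?_
    refine Function.Injective.sumMap ?_ Function.injective_id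
    intro j j' h
    exact Fin.castAdd_injective q n (congrArg Subtype.val h)
  set Φ : FreeGroup (Fin q ⊕ β) →* FreeGroup (Fin n) := FreeGroup.lift (Sum.elim
      (fun j => a j * FreeGroup.of (Γ.lab (ε j)) * b j)
      (fun x : β => ((φ (FreeGroup.of x) : ↥((delR Γ (Set.range ε)).im FreeGroup.of)) :
        FreeGroup (Fin n)))) with hΦ
  have hmem : ∀ x, Φ x ∈ Γ.im FreeGroup.of := by
    intro x
    have h1 : Φ.range ≤ Γ.im FreeGroup.of := by
      rw [hΦ, FreeGroup.range_lift_eq_closure, Subgroup.closure_le]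
      rintro _ ⟨j | y, rfl⟩
      · exact dec_mem ε a b ha hb j
      · exact mem_im.2 (delR_P (mem_im.1 (φ (FreeGroup.of y)).2))
    exact h1 ⟨x, rfl⟩
  let Φ' : FreeGroup (Fin q ⊕ β) →* ↥(Γ.im FreeGroup.of) := Φ.codRestrict _ hmem
  have hcomp : Ψ.comp Φ' = (FreeGroup.lift (Sum.elim (fun i : ↥S => FreeGroup.of (i : Fin (q + n)))
      (fun x : β => ((φ' (FreeGroup.of x) : ↥B) : FreeGroup (Fin (q + n)))))).comp κ := by
    apply FreeGroup.ext_hom
    rintro (j | y)
    · have h1 : Φ' (FreeGroup.of (Sum.inl j)) = ⟨_, dec_mem ε a b ha hb j⟩ := by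
        apply Subtype.ext
        show Φ (FreeGroup.of (Sum.inl j)) = _
        rw [hΦ, FreeGroup.lift_apply_of]
        rfl
      rw [MonoidHom.comp_apply, h1, hU]
      simp [κ]
    · have h1 : Φ' (FreeGroup.of (Sum.inr y)) = ⟨((φ (FreeGroup.of y) :
          ↥((delR Γ (Set.range ε)).im FreeGroup.of)) : FreeGroup (Fin n)),
          mem_im.2 (delR_P (mem_im.1 (φ (FreeGroup.of y)).2))⟩ := by
        apply Subtype.ext
        show Φ (FreeGroup.of (Sum.inr y)) = _
        rw [hΦ, FreeGroup.lift_apply_of]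
        rfl
      rw [MonoidHom.comp_apply, h1, hC _ (φ (FreeGroup.of y)).2]
      simp only [κ, MonoidHom.comp_apply, FreeGroup.map.of, Sum.map_inr, id_eq,
        FreeGroup.lift_apply_of, Sum.elim_inr]
      exact (Subgroup.coe_equivMapOfInjective_apply _ ι hιinj (φ (FreeGroup.of y))).symm
  intro x y hxy
  have h1 : Φ' x = Φ' y := Subtype.ext hxy
  have h2 : Ψ.comp Φ' x = Ψ.comp Φ' y := by
    rw [MonoidHom.comp_apply, MonoidHom.comp_apply, h1]
  rw [hcomp] at h2
  exact hκ (hfi h2)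

end Dec

end Pool.Agent.Helper55.HL
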