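import Pool.Agent.Helper22.OR.Finite
import Pool.Agent.Helper55.HL.Hol

/-!
# Generic elements, part A: words and graphs

* `unique_word`: a word that meets relators only in short parts is the only reading;
* `blk M is`: the word `x_(i1)^M x_(i2)^M …`; its parts that are parts of relators are short;
* `one_edge`: a closed walk that reads `blk M is`, `is` without repetition and of length `T + 1`, in a
  connected graph of rank at most `T`, passes some edge outside a given small set exactly once.
-/

set_option autoImplicit false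

namespace Pool.Agent.Helper55.HL

open Pool.Agent.Helper22.OR Gr

variable {n : ℕ} {G : Type} [Group G]

/-- The reading of an element in a minimal graph is unique, if its word has only short parts of
relators. -/
theorem unique_word {f : Fin n → G} {L e s b : ℕ} {RR : Set (List (Letter n))}
    (hy : Hyp f L e s b RR) {w u : FreeGroup (Fin n)}
    (hNP : ∀ c, 1 ≤ c → c ≤ 2 * e → NoPart RR c w.toWord)
    (hu : ∀ x ρ y v, u.toWord = x ++ ρ ++ y → ρ ++ v ∈ RR → ρ.length ≤ e)
    (hl : FreeGroup.lift f w = FreeGroup.lift f u) : w = u := by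
  have hL : 2 * e + 2 < L := by
    have h1 := hy.num
    have h2 : 16 * e ≤ (12 * n + 16) * e := Nat.mul_le_mul_right e (by omega)
    have h3 := hy.he
    omega
  have he := hy.he
  by_contra hww
  obtain ⟨p, w1, w1', hp, hp', hred⟩ := split w.toWord u.toWord
    FreeGroup.isReduced_toWord FreeGroup.isReduced_toWord
  have hwmk : w = FreeGroup.mk (p ++ w1) := by rw [← hp, FreeGroup.mk_toWord]
  have hwmk' : u = FreeGroup.mk (p ++ w1') := by rw [← hp', FreeGroup.mk_toWord]
  have hu' : w⁻¹ * u = FreeGroup.mk (FreeGroup.invRev w1 ++ w1') := by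
    rw [hwmk', hwmk, ← FreeGroup.mul_mk, ← FreeGroup.mul_mk, ← FreeGroup.mul_mk,
      ← FreeGroup.inv_mk]
    group
  have huW : (w⁻¹ * u).toWord = FreeGroup.invRev w1 ++ w1' := by
    rw [hu', FreeGroup.toWord_mk, hred.reduce_eq]
  obtain ⟨x, ρ, y, v, hx, hR, hv⟩ := hy.green (w⁻¹ * u)
    (fun h => hww (inv_mul_eq_one.1 h)) (by rw [map_mul, map_inv, hl, inv_mul_cancel])
  rw [huW] at hx
  have hlen : ρ.length + e = L := by
    have := hy.len _ hR
    rw [List.length_append, hv] at this
    exact this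
  have hN2 : ∀ c, 1 ≤ c → c ≤ 2 * e → NoPart RR c (FreeGroup.invRev w1) := fun c h1 h2 =>
    NoPart.inv hy (NoPart.sub (x := p) (y := []) (hNP c h1 h2) (by rw [hp]; simp))
  rcases position hx with ⟨z, hz⟩ | ⟨z, hz⟩ | ⟨ρ1, ρ2, hρ12, hA, hB⟩
  · exact hN2 e he (by omega) x ρ z v hz hR hv
  · have h1 := hu (p ++ z) ρ y v (by rw [hp', hz]; simp) hR
    omega
  · have h1 : ρ2.length ≤ e := by
      refine hu p ρ2 y (v ++ ρ1) (by rw [hp', hB]; simp) ?_
      rw [hρ12, List.append_assoc] at hR
      have h2 := (rr_move hy hR).1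
      rwa [List.append_assoc] at h2
    refine hN2 (ρ2.length + e) (by omega) (by omega) x ρ1 [] (ρ2 ++ v) ?_ ?_ ?_
    · rw [hA, List.append_nil]
    · rw [← List.append_assoc, ← hρ12]
      exact hR
    · rw [List.length_append, hv]

/-- the word `x_(i1)^M x_(i2)^M …` -/
def blk (M : ℕ) (is : List (Fin n)) : List (Letter n) :=
  is.flatMap (fun i => List.replicate M (i, true))

theorem blk_cons (M : ℕ) (i : Fin n) (is : List (Fin n)) :
    blk M (i :: is) = List.replicate M (i, true) ++ blk M is := rfl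

theorem blk_append (M : ℕ) (is is' : List (Fin n)) :
    blk M (is ++ is') = blk M is ++ blk M is' := by
  simp [blk]

theorem mem_blk {M : ℕ} {is : List (Fin n)} {x : Letter n} (h : x ∈ blk M is) :
    x.1 ∈ is ∧ x.2 = true := by
  unfold blk at h
  obtain ⟨i, hi, hx⟩ := List.mem_flatMap.1 h
  have h1 := List.eq_of_mem_replicate hx
  rw [h1]
  exact ⟨hi, rfl⟩

theorem blk_reduced (M : ℕ) (is : List (Fin n)) : FreeGroup.IsReduced (blk M is) := by
  have h : ∀ l : List (Letter n), (∀ x ∈ l, x.2 = true) → FreeGroup.IsReduced l := by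
    intro l hl
    unfold FreeGroup.IsReduced
    rw [List.isChain_iff_getElem]
    intro i hi _
    rw [hl _ (List.getElem_mem _), hl _ (List.getElem_mem _)]
  exact h _ fun x hx => (mem_blk hx).2

/-- all entries are equal -/
def Cst {α : Type} (l : List α) : Prop := ∀ z ∈ l, ∀ z' ∈ l, z = z'

theorem sub_blk (M : ℕ) (is : List (Fin n)) : ∀ (x ρ y : List (Letter n)),
    blk M is = x ++ ρ ++ y → ρ.length ≤ M → ∃ ρ1 ρ2, ρ = ρ1 ++ ρ2 ∧ Cst ρ1 ∧ Cst ρ2 := by
  induction is with
  | nil =>
    intro x ρ y h _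
    have h1 : ρ = [] := by
      have h2 := congrArg List.length h
      simp only [blk, List.flatMap_nil, List.length_nil, List.length_append] at h2
      exact List.length_eq_zero_iff.1 (by omega)
    refine ⟨[], [], by rw [h1]; rfl, ?_, ?_⟩ <;> intro z hz <;> simp at hz
  | cons i is ih =>
    intro x ρ y h hρ
    rw [blk_cons] at h
    have hrep : ∀ ρ' : List (Letter n), (∀ z ∈ ρ', z ∈ List.replicate M ((i, true) : Letter n)) →
        Cst ρ' := by
      intro ρ' h1 z hz z' hz'
      rw [List.eq_of_mem_replicate (h1 z hz), List.eq_of_mem_replicate (h1 z' hz')]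
    rcases position h with ⟨z, hz⟩ | ⟨z, hz⟩ | ⟨ρ1, ρ2, hρ12, hA, hB⟩
    · refine ⟨ρ, [], by simp, hrep ρ ?_, ?_⟩
      · intro t ht
        rw [hz]
        simp [ht]
      · intro z hz
        simp at hz
    · exact ih z ρ y hz hρ
    · refine ⟨ρ1, ρ2, hρ12, hrep ρ1 (fun t ht => by rw [hA]; simp [ht]), ?_⟩
      have hlen : ρ2.length ≤ M := by
        rw [hρ12, List.length_append] at hρ
        omega
      cases is with
      | nil =>
        have h2 := congrArg List.length hB
        simp only [blk, List.flatMap_nil, List.length_nil, List.length_append] at h2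
        have h3 : ρ2 = [] := List.length_eq_zero_iff.1 (by omega)
        intro z hz
        rw [h3] at hz
        simp at hz
      | cons i' is' =>
        rw [blk_cons] at hB
        have h1 : ρ2 <+: List.replicate M ((i', true) : Letter n) := by
          refine List.prefix_of_prefix_length_le (l₃ := List.replicate M (i', true) ++ blk M is')
            ⟨y, hB.symm⟩ ⟨blk M is', rfl⟩ ?_
          rw [List.length_replicate]
          exact hlen
        intro z hz z' hz'
        rw [List.eq_of_mem_replicate (h1.subset hz), List.eq_of_mem_replicate (h1.subset hz')]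

/-- The parts of relators in the word `blk M is` are short. -/
theorem blk_short {L e M : ℕ} {RR : Set (List (Letter n))} (hlen : ∀ w ∈ RR, w.length = L)
    (hrun : ∀ x a m v, x ++ List.replicate m a ++ v ∈ RR → 2 * m ≤ e) (hM : L ≤ M)
    (is : List (Fin n)) (x ρ y v : List (Letter n)) (h : blk M is = x ++ ρ ++ y)
    (hR : ρ ++ v ∈ RR) : ρ.length ≤ e := by
  have h1 : ρ.length ≤ M := by
    have := hlen _ hR
    rw [List.length_append] at this
    omega
  obtain ⟨ρ1, ρ2, h2, h3, h4⟩ := sub_blk M is x ρ y h h1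
  have key : ∀ (l : List (Letter n)), Cst l → ∀ x v, x ++ l ++ v ∈ RR → 2 * l.length ≤ e := by
    intro l hl x v hx
    rcases l with _ | ⟨a, l⟩
    · simp
    · have h5 : a :: l = List.replicate (a :: l).length a :=
        List.eq_replicate_iff.2 ⟨rfl, fun z hz => hl z hz a (by simp)⟩
      rw [h5] at hx
      exact hrun _ _ _ _ hx
  have h6 := key ρ1 h3 [] (ρ2 ++ v) (by
    rw [List.nil_append, ← List.append_assoc, ← h2]
    exact hR)
  have h7 := key ρ2 h4 ρ1 v (by
    rw [← h2]
    exact hR)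
  rw [h2, List.length_append]
  omega

/-- A walk that avoids `R` is a path in the graph without the edges in `R`. -/
theorem P_of_walk_del {Γ : Gr (Fin n)} {R : Set Γ.E} [DecidablePred (· ∈ R)] {l : List Γ.D} :
    ∀ {u v : Γ.V}, walk Γ u l v → (∀ d ∈ l, d.1 ∉ R) →
      (delR Γ R).P FreeGroup.of u v (FreeGroup.mk (l.map Γ.lt)) := by
  induction l with
  | nil =>
    intro u v h _
    subst h
    exact P.refl (Γ := delR Γ R) _
  | cons d l ih =>
    intro u v h hR
    obtain ⟨h1, h2⟩ := h
    have h3 := ih h2 fun d' hd' => hR d' (List.mem_cons_of_mem _ hd')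
    have h4 : d.1 ∉ R := hR d (List.mem_cons_self ..)
    subst h1
    have h5 : (FreeGroup.mk ((d :: l).map Γ.lt) : FreeGroup (Fin n)) =
        FreeGroup.mk [Γ.lt d] * FreeGroup.mk (l.map Γ.lt) := by
      rw [FreeGroup.mul_mk]
      rfl
    rw [h5]
    obtain ⟨e, c⟩ := d
    cases c
    · exact (P.edge' (Γ := delR Γ R) (f := FreeGroup.of) ⟨e, h4⟩).trans h3
    · exact (P.edge (Γ := delR Γ R) (f := FreeGroup.of) ⟨e, h4⟩).trans h3

/-- Removing edges whose ends remain connected. -/
theorem conn_delR {α : Type} {K : Type} [Group K] {f : α → K} {Γ : Gr α} {R : Set Γ.E}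
    [DecidablePred (· ∈ R)]
    (h : ∀ e ∈ R, ∃ g, (delR Γ R).P f (Γ.src e) (Γ.tgt e) g) {u v : Γ.V} {g : K}
    (hP : Γ.P f u v g) : ∃ g', (delR Γ R).P f u v g' := by
  induction hP with
  | refl v => exact ⟨1, P.refl (Γ := delR Γ R) v⟩
  | fwd e _ ih =>
    obtain ⟨g', h1⟩ := ih
    by_cases he : e ∈ R
    · obtain ⟨g2, h2⟩ := h e he
      exact ⟨_, h2.trans h1⟩
    · exact ⟨_, (P.edge (Γ := delR Γ R) (f := f) ⟨e, he⟩).trans h1⟩
  | bwd e _ ih =>
    obtain ⟨g', h1⟩ := ih
    by_cases he : e ∈ R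
    · obtain ⟨g2, h2⟩ := h e he
      exact ⟨_, h2.symm.trans h1⟩
    · exact ⟨_, (P.edge' (Γ := delR Γ R) (f := f) ⟨e, he⟩).trans h1⟩

/-- A connected graph has at least `|V| - 1` edges. -/
theorem card_le_of_conn {α : Type} {K : Type} [Group K] {f : α → K} {Γ : Gr α}
    (h : ∀ v, ∃ g, Γ.P f Γ.base v g) : Fintype.card Γ.V ≤ Fintype.card Γ.E + 1 := by
  classical
  let S : SimpleGraph Γ.V := SimpleGraph.fromRel fun u v => ∃ e, Γ.src e = u ∧ Γ.tgt e = v
  have h1 : ∀ {u v : Γ.V} {g : K}, Γ.P f u v g → S.Reachable u v := by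
    intro u v g hP
    have hadj : ∀ e, S.Reachable (Γ.src e) (Γ.tgt e) := by
      intro e
      by_cases he : Γ.src e = Γ.tgt e
      · rw [he]
      · exact SimpleGraph.Adj.reachable
          ((SimpleGraph.fromRel_adj _ _ _).2 ⟨he, Or.inl ⟨e, rfl, rfl⟩⟩)
    induction hP with
    | refl v => exact SimpleGraph.Reachable.refl v
    | fwd e _ ih => exact (hadj e).trans ih
    | bwd e _ ih => exact (hadj e).symm.trans ih
  have h2 : S.Connected := by
    haveI : Nonempty Γ.V := ⟨Γ.base⟩
    refine SimpleGraph.Connected.mk ?_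
    intro u v
    obtain ⟨g, hg⟩ := h u
    obtain ⟨g', hg'⟩ := h v
    exact (h1 hg).symm.trans (h1 hg')
  have h3 := h2.card_vert_le_card_edgeSet_add_one
  have h4 : Nat.card S.edgeSet ≤ Fintype.card Γ.E := by
    rw [← Nat.card_eq_fintype_card]
    have h5 : ∀ x : S.edgeSet, ∃ e : Γ.E, s(Γ.src e, Γ.tgt e) = x.1 := by
      rintro ⟨x, hx⟩
      induction x using Sym2.ind with
      | _ u v =>
        rw [SimpleGraph.mem_edgeSet, SimpleGraph.fromRel_adj] at hx
        rcases hx.2 with ⟨e, h6, h7⟩ | ⟨e, h6, h7⟩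
        · exact ⟨e, by rw [h6, h7]⟩
        · exact ⟨e, by rw [h6, h7, Sym2.eq_swap]⟩
    choose c hc using h5
    refine Nat.card_le_card_of_injective c ?_
    intro x y hxy
    apply Subtype.ext
    rw [← hc x, ← hc y, hxy]
  rw [Nat.card_eq_fintype_card] at h3
  omega

/-- The first repetition in a list. -/
theorem dup {α : Type} {l : List α} (h : ¬ l.Nodup) :
    ∃ p d m r, l = p ++ d :: (m ++ d :: r) ∧ d ∉ m := by
  induction l with
  | nil => exact absurd List.nodup_nil h
  | cons x t ih =>
    by_cases hx : x ∈ t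
    · obtain ⟨m, r, h1, h2⟩ := List.eq_append_cons_of_mem hx
      exact ⟨[], x, m, r, by rw [h1]; rfl, h2⟩
    · have h1 : ¬ t.Nodup := fun h2 => h (List.nodup_cons.2 ⟨hx, h2⟩)
      obtain ⟨p, d, m, r, h2, h3⟩ := ih h1
      exact ⟨x :: p, d, m, r, by rw [h2]; rfl, h3⟩

end Pool.Agent.Helper55.HL
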