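import Pool.Agent.Helper55.HL.Gen
import Pool.Agent.Helper22.OR.Hopf
import Pool.Agent.Helper22.OR.Max
import Pool.Agent.Helper32.OR.Fin1

/-!
# Generic elements in the form of the structure `Tame`; the hypothesis on runs
-/

set_option autoImplicit false

namespace Pool.Agent.Helper55.HL

open Pool.Agent.Helper22.OR Gr

variable {n : ℕ} {G : Type} [Group G]

/-- The field `gen` of `Tame`. -/
theorem gen_of_hyp {f : Fin n → G} {L e s b : ℕ} {RR : Set (List (Letter n))}
    (hy : Hyp f L e s b RR) (hrun : ∀ x a m v, x ++ List.replicate m a ++ v ∈ RR → 2 * m ≤ e)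
    {K : ℕ} (hK : K ≤ n) (q T : ℕ) (hq : q * (T + 1) ≤ K) (hT : T + 1 ≤ K) (H : Subgroup G)
    (hH : H.FG) : ∃ y : Fin q → G, ∀ J : Subgroup G, Gen T J → H ≤ J → (∀ i, y i ∈ J) →
      ∃ (c : ℕ) (a : Fin c → G), Function.Injective (FreeGroup.lift (Fin.append a y)) ∧
        Subgroup.closure (Set.range a) ⊔ Subgroup.closure (Set.range y) = J ∧
        H ≤ Subgroup.closure (Set.range a) := by
  classical
  obtain ⟨S, hS⟩ := hH
  choose r hr using hy.surj
  obtain ⟨y, hy'⟩ := generic_words hy hrun (q := q) (T := T) (by omega) (by omega) (S.image r)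
  refine ⟨y, ?_⟩
  intro J hJ hHJ hyJ
  obtain ⟨g, hg⟩ := hJ
  have h1 : ∀ w ∈ S.image r, FreeGroup.lift f w ∈ Subgroup.closure (Set.range g) := by
    intro w hw
    obtain ⟨x, hx, rfl⟩ := Finset.mem_image.1 hw
    rw [hr, hg]
    exact hHJ (hS ▸ Subgroup.subset_closure hx)
  obtain ⟨β, φ, h2, h3, h4, h5⟩ := hy' T le_rfl g h1 (fun j => by rw [hg]; exact hyJ j)
  have hfin : Finite β := by
    let φ' : FreeGroup (Fin q ⊕ β) ≃* ↥(Subgroup.closure (Set.range g)) :=
      (MonoidHom.ofInjective h2).trans (MulEquiv.subgroupCongr h3)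
    have h6 := card_le_of_gen φ'
      (fun i => (⟨g i, Subgroup.subset_closure ⟨i, rfl⟩⟩ : ↥(Subgroup.closure (Set.range g)))) (by
        have h7 : Set.range (fun i => (⟨g i, Subgroup.subset_closure ⟨i, rfl⟩⟩ :
            ↥(Subgroup.closure (Set.range g)))) = Subtype.val ⁻¹' (Set.range g) := by
          ext x
          constructor
          · rintro ⟨i, rfl⟩
            exact ⟨i, rfl⟩
          · rintro ⟨i, hi⟩
            exact ⟨i, Subtype.ext hi⟩
        rw [h7]
        exact Subgroup.closure_closure_coe_preimage)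
    have := h6.1
    exact Finite.of_injective (Sum.inr : β → Fin q ⊕ β) Sum.inr_injective
  obtain ⟨c, ⟨e'⟩⟩ := Finite.exists_equiv_fin β
  set a : Fin c → G := fun i => φ (FreeGroup.of (Sum.inr (e'.symm i))) with ha
  let E : Fin (c + q) ≃ Fin q ⊕ β :=
    (finSumFinEquiv.symm.trans (Equiv.sumComm _ _)).trans (Equiv.sumCongr (Equiv.refl _) e'.symm)
  have h6 : FreeGroup.lift (Fin.append a y) = φ.comp (FreeGroup.map E) := by
    apply FreeGroup.ext_hom
    intro i
    rw [FreeGroup.lift_apply_of, MonoidHom.comp_apply, FreeGroup.map.of]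
    refine Fin.addCases (fun j => ?_) (fun j => ?_) i
    · rw [Fin.append_left]
      simp [E, ha]
    · rw [Fin.append_right]
      simp [E, h4]
  have h7 : Function.Injective (FreeGroup.lift (Fin.append a y)) := by
    rw [h6]
    exact h2.comp (FreeGroup.map_injective E.injective)
  have h8 : (φ.comp (FreeGroup.map (Sum.inr : β → Fin q ⊕ β))).range =
      Subgroup.closure (Set.range a) := by
    have h9 : Subgroup.closure (Set.range a) = (FreeGroup.lift a).range :=
      (FreeGroup.range_lift_eq_closure).symm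
    have h10 : FreeGroup.lift a = (φ.comp (FreeGroup.map (Sum.inr : β → Fin q ⊕ β))).comp
        (FreeGroup.map e'.symm) := by
      apply FreeGroup.ext_hom
      intro i
      rw [FreeGroup.lift_apply_of, MonoidHom.comp_apply, MonoidHom.comp_apply,
        FreeGroup.map.of, FreeGroup.map.of]
    rw [h9, h10]
    ext x
    constructor
    · rintro ⟨z, rfl⟩
      refine ⟨FreeGroup.map e' z, ?_⟩
      rw [MonoidHom.comp_apply]
      congr 1
      rw [FreeGroup.map.comp]
      simp
    · rintro ⟨z, rfl⟩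
      exact ⟨_, rfl⟩
  refine ⟨c, a, h7, ?_, ?_⟩
  · rw [← hg, ← h3, ← Subgroup.closure_union]
    have h9 : (FreeGroup.lift (Fin.append a y)).range = φ.range := by
      rw [h6]
      ext x
      constructor
      · rintro ⟨z, rfl⟩
        exact ⟨_, rfl⟩
      · rintro ⟨z, rfl⟩
        refine ⟨FreeGroup.map E.symm z, ?_⟩
        rw [MonoidHom.comp_apply]
        congr 1
        rw [FreeGroup.map.comp]
        simp
    rw [← h9, FreeGroup.range_lift_eq_closure]
    congr 1
    ext x
    constructor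
    · rintro (⟨i, rfl⟩ | ⟨i, rfl⟩)
      · exact ⟨Fin.castAdd q i, Fin.append_left _ _ _⟩
      · exact ⟨Fin.natAdd c i, Fin.append_right _ _ _⟩
    · rintro ⟨i, rfl⟩
      refine Fin.addCases (fun j => ?_) (fun j => ?_) i
      · exact Or.inl ⟨j, (Fin.append_left _ _ _).symm⟩
      · exact Or.inr ⟨j, (Fin.append_right _ _ _).symm⟩
  · rw [← h8, ← hS, Subgroup.closure_le]
    intro x hx
    have h9 := h5 (r x) (Finset.mem_image_of_mem r hx)
    rwa [hr] at h9

end Pool.Agent.Helper55.HL
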